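import Pool.Agent.Helper91_C4N.Top
import Pool.Agent.Helper91_C4N.Mrk
import Pool.Agent.Helper46_C4N.Smp
import Pool.Agent.Helper7_C4N.Rou
import Pool.Agent.Helper7_C4K.Final
import Pool.Agent.Helper53_C4N.BaseF
import Pool.Agent.Helper30_C4N.Cye
import Pool.Agent.Helper29_C4N.Sta
import Pool.Agent.Helper29_C4N.Ebl
import Pool.Agent.Helper6_C4N.St0
import Pool.Agent.Helper37_C4N.Ite
import Pool.Agent.Helper37_C4N.Lfo
import Pool.Agent.Helper37_C4N.Viz
import Pool.Agent.Helper17_C4N.Eul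
import Pool.Agent.Helper5_C4N.Trk
import Pool.Agent.Helper82_C4N.Res
import Pool.Agent.Helper58_C4N.Bet
import Pool.Agent.Helper11_C4N.Llb
import Pool.Agent.Helper9_CG.All

/-!
# C4-free graphs: assembly of M0
-/

set_option autoImplicit false

namespace Pool.Agent.C4N.H22

open Pool.Agent.C4N

theorem smp : SMPStmt := H46.smp H11.llb H29.ebl H29.edc H5.trk H82.res H58.betw

theorem mrk : MRKStmt := H91.mrk H11.llb H29.ebl H29.edc H5.trk

theorem rou : ROUStmt :=
  H7.rou H17.eul smp H53.baseF mrk Pool.Agent.C4K.H7.walksl H37.lfo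

theorem top0 : TOPStmt :=
  H91.top (H37.ite_ rou H6.st0) rou H29.sta H30.cye H37.viz CG.H9.topc

end Pool.Agent.C4N.H22
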