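import Pool.Agent.Helper22_C4N.M0
import Pool.Agent.Helper22_C4N.Fil
import Pool.Agent.Helper81_C4N.Chn
import Pool.Agent.Helper76_C4N.Seq
import Pool.Agent.Helper65_C4N.Pal
import Pool.Agent.Helper48_C4N.Lif
import Pool.Agent.Helper39_C4N.Ra
import Pool.Agent.Helper90_C4N.Rb
import Pool.Agent.Helper83_C4N.Rou2
import Pool.Agent.Helper32_C4N.Ite2
import Pool.Agent.Helper32_C4N.Eli
import Pool.Agent.Helper6_C4N.Goa
import Pool.Agent.Helper6_C4N.Fin2
import Pool.Agent.Helper86_C4N.Top2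
import Pool.Agent.Helper7_C4K.FinalM

/-!
# C4-free graphs: assembly of M2
-/

set_option autoImplicit false

namespace Pool.Agent.C4N.H22

open Pool.Agent.C4N

theorem ra : RAStmt := H39.ra H17.eul smp H53.baseF mrk H48.lif Pool.Agent.C4K.H7.walksm

theorem rb : RBStmt := H90.rb H37.lfo (H65.pal H11.llb) H81.chn (H76.seq fil)

theorem rou2 : ROU2Stmt := H83.rou2 ra rb

theorem top2 : TOP2Stmt :=
  H86.top2 (H32.ite2 rou2 H6.st0) rou2 (H32.eli H29.ins H11.llb H29.edc) (H6.fin2 H6.goa)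
    H29.sta H30.cye

end Pool.Agent.C4N.H22
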