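import Mathlib
import Pool.Agent.C4N.Stm2
import Pool.Agent.Helper76_LAG.Res

/-!
# C4-free graphs: the theorem in the form of the question
-/

set_option autoImplicit false

open SimpleGraph Pool.Agent.LAG Pool.Agent.LAG.Res Pool.Agent.Helper14_LA

namespace Pool.Agent.C4N.Res

/-- The linear arboricity of `G`: the least `k` such that `G` is the union of `k` linear forests
(acyclic graphs all of whose degrees are at most two) on the vertex set of `G`. -/
noncomputable def la {V : Type} (G : SimpleGraph V) : ℕ :=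
  sInf {k : ℕ | ∃ F : Fin k → SimpleGraph V,
    (∀ i, (F i).IsAcyclic ∧ ∀ v, ((F i).neighborSet v).ncard ≤ 2) ∧ (⨆ i, F i) = G}

/-- no cycle of length four -/
theorem c4free_of {V : Type} (G : SimpleGraph V)
    (h : ∀ (v : V) (c : G.Walk v v), c.IsCycle → c.length ≠ 4) : C4free G := by
  intro u v x y huv hux hvx huy hvy
  by_contra hxy
  refine h u (Walk.cons hux (Walk.cons hvx.symm (Walk.cons hvy (Walk.cons huy.symm Walk.nil)))) ?_
    rfl
  rw [Walk.cons_isCycle_iff]
  have h1 := hux.ne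
  have h2 := hvx.ne
  have h3 := huy.ne
  have h4 := hvy.ne
  constructor
  · rw [Walk.isPath_def]
    simp [Walk.support_cons, List.nodup_cons]
    refine ⟨⟨h2.symm, hxy, h1.symm⟩, ⟨h4, huv.symm⟩, h3.symm⟩
  · simp [Walk.edges_cons, Sym2.eq_iff]
    tauto

/-- all graphs and regular graphs -/
theorem final0 (hTop : TOPStmt) : ∃ C : ℕ,
    (∀ (V : Type) [Fintype V] (G : SimpleGraph V) [DecidableRel G.Adj],
      (∀ (v : V) (c : G.Walk v v), c.IsCycle → c.length ≠ 4) →
      la G ≤ G.maxDegree / 2 + C) ∧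
    (∀ (V : Type) [Fintype V] [Nonempty V] (G : SimpleGraph V) [DecidableRel G.Adj] (r : ℕ),
      0 < r → G.IsRegularOfDegree r →
      (∀ (v : V) (c : G.Walk v v), c.IsCycle → c.length ≠ 4) →
      (r + 2) / 2 ≤ la G ∧ la G ≤ (r + 2) / 2 + C) := by
  obtain ⟨C, hcov⟩ := hTop
  refine ⟨C, ?_, ?_⟩
  · intro V _ G _ hg
    have h1 : CoveredBy G (G.maxDegree / 2 + C) := hcov V G G.maxDegree (fun v => by
      rw [dg, ncard_eq_degree]; exact G.degree_le_maxDegree v) (c4free_of G hg)
    exact la_le h1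
  · intro V _ _ G _ r hr hreg hg
    have hreg' : ∀ v, (G.neighborSet v).ncard = r := fun v => by
      rw [ncard_eq_degree, hreg v]
    have h1 : CoveredBy G (r / 2 + C) := hcov V G r (fun v => by rw [dg, hreg'])
      (c4free_of G hg)
    have h5 := lower_bound G hr hreg' (la_mem h1)
    have h6 : la G ≤ r / 2 + C := la_le h1
    have h8 : Pool.Agent.LAG.Res.la G = la G := rfl
    omega

/-- the exact version -/
theorem final2 (hTop : TOPStmt) (hTop2 : TOP2Stmt) : ∃ D0 C : ℕ,
    (∀ (V : Type) [Fintype V] (G : SimpleGraph V) [DecidableRel G.Adj],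
      (∀ (v : V) (c : G.Walk v v), c.IsCycle → c.length ≠ 4) →
      la G ≤ G.maxDegree / 2 + C ∧
        (D0 ≤ G.maxDegree → la G ≤ (G.maxDegree + 1) / 2 + 1)) ∧
    (∀ (V : Type) [Fintype V] [Nonempty V] (G : SimpleGraph V) [DecidableRel G.Adj] (r : ℕ),
      0 < r → D0 ≤ r → G.IsRegularOfDegree r →
      (∀ (v : V) (c : G.Walk v v), c.IsCycle → c.length ≠ 4) →
      (Even r → la G = (r + 2) / 2) ∧
      (Odd r → la G = (r + 2) / 2 ∨ la G = (r + 2) / 2 + 1)) := by
  obtain ⟨C, h0, -⟩ := final0 hTop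
  obtain ⟨D0, hcov⟩ := hTop2
  refine ⟨D0, C, ?_, ?_⟩
  · intro V _ G _ hg
    refine ⟨h0 V G hg, fun hD => ?_⟩
    have h1 : CoveredBy G ((G.maxDegree + 1) / 2 + 1) := hcov V G G.maxDegree hD (fun v => by
      rw [dg, ncard_eq_degree]; exact G.degree_le_maxDegree v) (c4free_of G hg)
    exact la_le h1
  · intro V _ _ G _ r hr hD hreg hg
    have hreg' : ∀ v, (G.neighborSet v).ncard = r := fun v => by
      rw [ncard_eq_degree, hreg v]
    have h1 : CoveredBy G ((r + 1) / 2 + 1) := hcov V G r hD (fun v => by rw [dg, hreg'])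
      (c4free_of G hg)
    have h5 := lower_bound G hr hreg' (la_mem h1)
    have h6 : la G ≤ (r + 1) / 2 + 1 := la_le h1
    have h8 : Pool.Agent.LAG.Res.la G = la G := rfl
    refine ⟨fun ⟨a, ha⟩ => ?_, fun ⟨a, ha⟩ => ?_⟩ <;> omega

end Pool.Agent.C4N.Res
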